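import Pool.Agent.Lib.MP_f90f6c_an.H85Main
import Pool.Agent.Lib.MP_f90f6c_an.H81Known

/-!
Q1: for an action of a finite group with the weak tracial Rokhlin property on an
infinite-dimensional simple unital C⋆-algebra, `rc (A^α) = rc A` and
`rc (C⋆(G, A, α)) = rc A / card G`.
-/

namespace Pool.Agent.Variants.MP_f90f6c_an.Full

open Pool.Agent.Lib.MP_f90f6c_an.H50
open scoped ENNReal

theorem result {G : Type*} [Group G] [Fintype G] [DecidableEq G]
    {A : Type*} [CStarAlgebra A] [PartialOrder A] [StarOrderedRing A]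
    (α : G →* (A ≃⋆ₐ[ℂ] A)) (hsimple : IsSimple A) (hinf : ¬FiniteDimensional ℂ A)
    (hα : WeakTracialRokhlin α) :
    rc (fixedAlg α) = rc A ∧ rc (crossed α) = (Fintype.card G : ℝ≥0∞)⁻¹ * rc A :=
  ⟨le_antisymm (rc_known hsimple hinf hα).1 (rc_le_full hsimple hinf hα).1,
    le_antisymm (rc_known hsimple hinf hα).2 (rc_le_full hsimple hinf hα).2⟩

end Pool.Agent.Variants.MP_f90f6c_an.Full
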