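import Pool.Agent.Lib.MP_f90f6c_an.H81Known

/-!
Both equalities of Q1 hold when every quasitrace on `A` is invariant under the action.
-/

namespace Pool.Agent.Variants.MP_f90f6c_an.InvariantQuasitraces

open Pool.Agent.Lib.MP_f90f6c_an.H50
open scoped ENNReal

theorem result {G : Type*} [Group G] [Fintype G] [DecidableEq G]
    {A : Type*} [CStarAlgebra A] [PartialOrder A] [StarOrderedRing A]
    (α : G →* (A ≃⋆ₐ[ℂ] A)) (hsimple : IsSimple A) (hinf : ¬FiniteDimensional ℂ A)
    (hinv : InvariantQT α) (hα : WeakTracialRokhlin α) :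
    rc (fixedAlg α) = rc A ∧ rc (crossed α) = (Fintype.card G : ℝ≥0∞)⁻¹ * rc A :=
  have H := reduces hsimple hinf hα (Or.inr (Or.inr (Or.inl hinv)))
  ⟨le_antisymm (rc_known hsimple hinf hα).1 H.rc_le_fixed,
    le_antisymm (rc_known hsimple hinf hα).2 (H.rc_le_crossed hsimple hinf hα)⟩

end Pool.Agent.Variants.MP_f90f6c_an.InvariantQuasitraces
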